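import Pool.Agent.Helper50.VD.St

open MeasureTheory Set Filter Topology
open scoped ENNReal

noncomputable section

namespace VD.M_F4

/-- translation -/
def T (τ : ℝ) (z : ℝ × ℝ) : ℝ × ℝ := (z.1 + τ, z.2)

theorem mp_T (τ : ℝ) : MeasurePreserving (T τ) (volume : Measure (ℝ × ℝ)) volume :=
  (measurePreserving_add_right (volume : Measure ℝ) τ).prod (MeasurePreserving.id volume)

theorem mp_r0 : MeasurePreserving (rfl' 0) (volume : Measure (ℝ × ℝ)) volume := by
  have h := (Measure.measurePreserving_neg (volume : Measure ℝ)).prod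
    (MeasurePreserving.id (volume : Measure ℝ))
  have e : rfl' 0 = Prod.map Neg.neg id := by
    ext z
    · simp [rfl']
    · simp [rfl']
  rw [e]
  exact h

end VD.M_F4

namespace VD

open M_F4

/-- structure of maximisers in a box -/
theorem mF4 (hK0 : StK0) (_hK1 : StK1) (_hK2 : StK2) (_hK3 : StK3) (hK5 : StK5) (_hK9 : StK9)
    (hX1 : StX1) (hX4 : StX4) (hM6 : StM6) : StF4 := by
  intro n c A hn hc0 hc hMx
  obtain ⟨⟨hA, hAB, hnuA, _⟩, _⟩ := id hMx
  have hAO : A ⊆ Om := hAB.trans (Box_subset_Om n)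
  have hcT : c ≠ ∞ := (lt_top_of_lt hc).ne
  have hvolA : 0 < volume A := by
    rw [← nu_pos_iff hA hAO, hnuA]
    exact pos_iff_ne_zero.mpr hc0
  have hBv := volume_Box_lt_top n
  have hm : volume (Box n) + 1 ≠ ∞ := ENNReal.add_ne_top.mpr ⟨hBv.ne, ENNReal.one_ne_top⟩
  have hlt : volume A < volume (Box n) + 1 :=
    lt_of_le_of_lt (measure_mono hAB) (ENNReal.lt_add_right hBv.ne one_ne_zero)
  have hDA : 0 < volume (Box n \ A) := by
    by_contra h
    have h0 : volume (Box n \ A) = 0 := by simpa using h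
    have h1 : nu (Box n \ A) = 0 := (withDensity_absolutelyContinuous _ _) h0
    have h2 : nu (Box n) ≤ c := by
      calc nu (Box n) ≤ nu (A ∪ (Box n \ A)) := measure_mono (by
            intro z hz
            by_cases hzA : z ∈ A
            · exact Or.inl hzA
            · exact Or.inr ⟨hz, hzA⟩)
        _ ≤ nu A + nu (Box n \ A) := measure_union_le _ _
        _ = c := by rw [h1, add_zero, hnuA]
    exact absurd hc (not_lt.mpr h2)
  obtain ⟨W, hW, ha, hb⟩ := hX1 (Box n) A c (volume (Box n) + 1) (measurableSet_Box n)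
    (Box_subset_Om n) hc0 hcT hm hMx (Or.inl hlt) hDA
  obtain ⟨τ, hsym, heven, hdec⟩ := hX4 (Box n) A c (volume (Box n) + 1) (Or.inr ⟨n, rfl⟩) hm hcT hMx
    ⟨n, hAB⟩ hvolA
  have hdec2 := hM6 A n W hA hAB hvolA ha hb
  set ψ : ℝ × ℝ → ℝ := fun z => phi A (T τ z) with hψ
  have hψm : Measurable ψ := (hK0.2.1 A hA).comp (mp_T τ).measurable
  have hTr : ∀ z, rfl' τ (T τ z) = T τ (rfl' 0 z) := by
    intro z
    unfold rfl' T
    ext
    · simp only; ring
    · rfl
  have hψe : ∀ z : ℝ × ℝ, 0 ≤ z.2 → ψ (rfl' 0 z) = ψ z := by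
    intro z hz
    simp only [hψ]
    rw [← hTr z]
    exact heven (T τ z) hz
  have hψe' : ∀ x s : ℝ, 0 ≤ s → ψ (x, s) = ψ (|x|, s) := by
    intro x s hs
    rcases le_total 0 x with h | h
    · rw [abs_of_nonneg h]
    · rw [abs_of_nonpos h, ← hψe (x, s) hs]
      simp [rfl']
  -- the level set is null
  have hnull : ∀ᵐ z : ℝ × ℝ, z ∈ Om → ψ z ≠ W := by
    have hms : MeasurableSet {z : ℝ × ℝ | 0 < z.2 ∧ ψ z = W} :=
      (measurableSet_lt measurable_const measurable_snd).inter
        (hψm (measurableSet_singleton W))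
    have h0 : volume {z : ℝ × ℝ | 0 < z.2 ∧ ψ z = W} = 0 := by
      rw [Measure.volume_eq_prod, Measure.measure_prod_null hms]
      refine ae_of_all _ fun x => ?_
      apply Set.Subsingleton.measure_zero
      rintro s ⟨hs, hs'⟩ t ⟨ht, ht'⟩
      simp only [hψ, T] at hs' ht'
      by_contra hne
      rcases lt_or_gt_of_ne hne with h | h
      · have := hdec2 (x + τ) s t (le_of_lt hs) h
        rw [hs', ht'] at this
        exact lt_irrefl _ this
      · have := hdec2 (x + τ) t s (le_of_lt ht) h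
        rw [hs', ht'] at this
        exact lt_irrefl _ this
    rw [ae_iff]
    refine measure_mono_null (fun z hz => ?_) h0
    simp only [mem_ofPred_eq, not_forall, not_not] at hz
    obtain ⟨h1, h2⟩ := hz
    exact ⟨h1, h2⟩
  have ha' : ∀ᵐ z : ℝ × ℝ, T τ z ∈ A → W ≤ ψ z := (mp_T τ).quasiMeasurePreserving.ae ha
  have hb' : ∀ᵐ z : ℝ × ℝ, T τ z ∈ Box n → T τ z ∉ A → ψ z ≤ W :=
    (mp_T τ).quasiMeasurePreserving.ae hb
  have hc' : ∀ᵐ z : ℝ × ℝ, T τ z ∈ A ↔ T τ (rfl' 0 z) ∈ A := by
    have := (mp_T τ).quasiMeasurePreserving.ae hsym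
    filter_upwards [this] with z hz
    rw [← hTr z]
    exact hz
  have hb'' : ∀ᵐ z : ℝ × ℝ, T τ (rfl' 0 z) ∈ Box n → T τ (rfl' 0 z) ∉ A → ψ (rfl' 0 z) ≤ W :=
    mp_r0.quasiMeasurePreserving.ae hb'
  -- |τ| ≤ n
  have hτ : |τ| ≤ n := by
    have hv : volume (T τ ⁻¹' A) = volume A := (mp_T τ).measure_preimage hA.nullMeasurableSet
    have hex : ∃ z, T τ z ∈ A ∧ (T τ z ∈ A ↔ T τ (rfl' 0 z) ∈ A) := by
      by_contra hcon
      push Not at hcon
      have h0 : volume (T τ ⁻¹' A) = 0 := by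
        refine measure_mono_null (fun z hz => ?_) (ae_iff.mp hc')
        intro hh
        rcases hcon z hz with h | h
        · exact h.2 (hh.mp h.1)
        · exact h.1 hz
      rw [hv] at h0
      exact hvolA.ne' h0
    obtain ⟨z, hz, hz'⟩ := hex
    have h1 : |z.1 + τ| ≤ n := (hAB hz).1
    have h2 : |2 * 0 - z.1 + τ| ≤ n := (hAB (hz'.mp hz)).1
    rw [abs_le] at h1 h2 ⊢
    constructor <;> linarith [h1.1, h1.2, h2.1, h2.2]
  set A' : Set (ℝ × ℝ) := {z | z ∈ Box n ∧ W < ψ z} with hA'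
  have hA'm : MeasurableSet A' :=
    (measurableSet_Box n).inter (measurableSet_lt measurable_const hψm)
  have hAsh : sh (-τ) A = T τ ⁻¹' A := by
    ext z
    simp [sh, T]
  have hae : A' =ᵐ[volume] sh (-τ) A := by
    rw [hAsh]
    have : ∀ᵐ z : ℝ × ℝ, z ∈ A' ↔ z ∈ T τ ⁻¹' A := by
      filter_upwards [hnull, ha', hb', hc', hb''] with z h0 h1 h2 h3 h4
      constructor
      · rintro ⟨hzB, hzW⟩
        by_cases hs : z.1 * τ ≤ 0
        · by_contra hzA
          refine absurd hzW (not_lt.mpr (h2 ⟨?_, hzB.2.1, hzB.2.2⟩ hzA))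
          have e1 := hzB.1
          show |z.1 + τ| ≤ n
          rw [abs_le] at e1 hτ ⊢
          rcases le_total 0 z.1 with h | h
          · rcases h.eq_or_lt with h5 | h5
            · rw [← h5]; constructor <;> linarith [hτ.1, hτ.2]
            · have : τ ≤ 0 := by
                by_contra hh
                exact absurd hs (not_le.mpr (mul_pos h5 (not_le.mp hh)))
              constructor <;> linarith [hτ.1, hτ.2, e1.1, e1.2]
          · rcases h.eq_or_lt with h5 | h5
            · rw [h5]; constructor <;> linarith [hτ.1, hτ.2]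
            · have : 0 ≤ τ := by
                by_contra hh
                exact absurd hs (not_le.mpr (mul_pos_of_neg_of_neg h5 (not_le.mp hh)))
              constructor <;> linarith [hτ.1, hτ.2, e1.1, e1.2]
        · refine h3.mpr ?_
          by_contra hzA
          have hB : T τ (rfl' 0 z) ∈ Box n := by
            refine ⟨?_, hzB.2.1, hzB.2.2⟩
            have e1 := hzB.1
            show |2 * 0 - z.1 + τ| ≤ n
            rw [abs_le] at e1 hτ ⊢
            have hs' := not_le.mp hs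
            rcases lt_trichotomy 0 z.1 with h | h | h
            · have : 0 < τ := by
                by_contra hh
                have := mul_nonpos_of_nonneg_of_nonpos h.le (not_lt.mp hh)
                linarith
              constructor <;> linarith [hτ.1, hτ.2, e1.1, e1.2]
            · rw [← h, zero_mul] at hs'; exact absurd hs' (lt_irrefl _)
            · have : τ < 0 := by
                by_contra hh
                have := mul_nonpos_of_nonpos_of_nonneg h.le (not_lt.mp hh)
                linarith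
              constructor <;> linarith [hτ.1, hτ.2, e1.1, e1.2]
          have h5 := h4 hB hzA
          rw [hψe z hzB.2.1.le] at h5
          exact absurd hzW (not_lt.mpr h5)
      · intro hzA
        have hz1 := hAB hzA
        have hz2 := hAB (h3.mp hzA)
        have hzB : z ∈ Box n := by
          refine ⟨?_, hz1.2.1, hz1.2.2⟩
          have e1 : |z.1 + τ| ≤ n := hz1.1
          have e2 : |2 * 0 - z.1 + τ| ≤ n := hz2.1
          rw [abs_le] at e1 e2 ⊢
          constructor <;> linarith [e1.1, e1.2, e2.1, e2.2]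
        refine ⟨hzB, lt_of_le_of_ne (h1 hzA) (Ne.symm (h0 ?_))⟩
        exact hzB.2.1
    filter_upwards [this] with z hz
    exact propext hz
  have hphi' : ∀ z, phi A' z = ψ z := by
    intro z
    rw [phi_congr hae, (hK5.2.1 A (-τ) hA hAO).1 z]
    simp [hψ, T]
  refine ⟨A', W, ⟨⟨hA'm, fun z hz => hz.1.2.1, ⟨n, fun z hz => hz.1⟩, ?_⟩, fun z hz => hz.1, hW, ?_⟩,
    ?_, ?_⟩
  · intro z hz w hw hwz hwz2
    refine ⟨⟨hwz.trans hz.1.1, hw, hwz2.trans hz.1.2.2⟩, lt_of_lt_of_le hz.2 ?_⟩
    have e1 : ψ z = ψ (|z.1|, z.2) := hψe' z.1 z.2 hz.1.2.1.le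
    have e2 : ψ w = ψ (|w.1|, w.2) := hψe' w.1 w.2 hw.le
    rw [e1, e2]
    have e3 : ψ (|z.1|, z.2) ≤ ψ (|z.1|, w.2) := by
      rcases hwz2.eq_or_lt with h | h
      · rw [h]
      · exact (hdec2 (|z.1| + τ) w.2 z.2 hw.le h).le
    have e4 : ψ (|z.1|, w.2) ≤ ψ (|w.1|, w.2) := by
      rcases hwz.eq_or_lt with h | h
      · rw [h]
      · refine (hdec (|w.1| + τ) (|z.1| + τ) w.2 hw.le ?_ ?_).le
        · linarith [abs_nonneg w.1]
        · linarith
    exact e3.trans e4
  · intro z hz
    rw [hphi' z]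
    exact ⟨fun h => h.2, fun h => ⟨hz, h⟩⟩
  · rw [nu_congr hae, (hK5.2.1 A (-τ) hA hAO).2.1, hnuA]
  · rw [BG_congr hae hae, (hK5.2.1 A (-τ) hA hAO).2.2.2]

end VD
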