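import Pool.Agent.Helper50.VD.St

open MeasureTheory Set Filter Topology
open scoped ENNReal

noncomputable section

namespace VD.M_M0

/-- polar coordinates in `ℝ³` for radial functions, `lintegral` version -/
theorem lint_norm (f : ℝ → ℝ≥0∞) (hf : Measurable f) :
    ∫⁻ x : E3, f ‖x‖ = ∫⁻ s in Ioi (0 : ℝ), f s * ENNReal.ofReal (4 * Real.pi * s ^ 2) := by
  have hdim : Module.finrank ℝ E3 = 3 := by simp
  calc
    ∫⁻ x : E3, f ‖x‖ = ∫⁻ x : ({(0)}ᶜ : Set E3), f ‖x.1‖ ∂((volume : Measure E3).comap (↑)) := by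
      rw [lintegral_subtype_comap (measurableSet_singleton _).compl fun x : E3 ↦ f (‖x‖),
        restrict_compl_singleton]
    _ = ∫⁻ x : (Metric.sphere (0 : E3) 1) × (Ioi (0 : ℝ)), f x.2
          ∂(volume : Measure E3).toSphere.prod (.volumeIoiPow (Module.finrank ℝ E3 - 1)) := by
      simpa using (volume : Measure E3).measurePreserving_homeomorphUnitSphereProd.lintegral_comp_emb
        (Homeomorph.measurableEmbedding _) (f ∘ Subtype.val ∘ Prod.snd)
    _ = (volume : Measure E3).toSphere univ *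
          ∫⁻ x : Ioi (0 : ℝ), f x ∂.volumeIoiPow (Module.finrank ℝ E3 - 1) := by
      rw [lintegral_prod _ (by fun_prop)]
      simp [mul_comm]
    _ = _ := by
      rw [hdim, Measure.volumeIoiPow, lintegral_withDensity_eq_lintegral_mul _ (by fun_prop)
        (by fun_prop)]
      rw [← lintegral_const_mul _ (by fun_prop)]
      have h3 : (volume : Measure E3).toSphere univ = ENNReal.ofReal (4 * Real.pi) := by
        rw [Measure.toSphere_apply_univ, EuclideanSpace.volume_ball_fin_three, hdim]
        simp only [ENNReal.ofReal_one, one_pow, one_mul]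
        rw [show ((3 : ℕ) : ℝ≥0∞) = ENNReal.ofReal 3 by simp, ← ENNReal.ofReal_mul (by norm_num)]
        congr 1; ring
      rw [h3]
      simp only [Pi.mul_apply]
      rw [show (3 - 1 : ℕ) = 2 from rfl]
      rw [lintegral_subtype_comap measurableSet_Ioi fun a : ℝ ↦ ENNReal.ofReal (4 * Real.pi) *
        (ENNReal.ofReal (a ^ 2) * f a)]
      apply setLIntegral_congr_fun measurableSet_Ioi
      intro s _
      simp only
      rw [ENNReal.ofReal_mul (show (0 : ℝ) ≤ 4 * Real.pi by positivity)]
      ring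

end VD.M_M0

namespace VD

/-- radial integration in R^3 (polar coordinates) -/
theorem mM0 : StM0 := by
  intro F hF
  have hrad : Measurable rad := by
    unfold rad
    fun_prop
  have h1 : ∫⁻ Y : ℝ × E3, F (rad Y) = ∫⁻ a : ℝ, ∫⁻ b : E3, F (a, ‖b‖) := by
    rw [Measure.volume_eq_prod]
    exact lintegral_prod (fun Y : ℝ × E3 => F (rad Y)) (hF.comp hrad).aemeasurable
  have h2 : ∫⁻ y in Om, F y * ENNReal.ofReal (4 * Real.pi * y.2 ^ 2) =
      ∫⁻ a : ℝ, ∫⁻ s in Ioi (0 : ℝ), F (a, s) * ENNReal.ofReal (4 * Real.pi * s ^ 2) := by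
    have hOm : Om = (univ : Set ℝ) ×ˢ Ioi (0 : ℝ) := by
      ext z; simp [Om]
    rw [hOm, Measure.volume_eq_prod, ← Measure.prod_restrict, Measure.restrict_univ,
      lintegral_prod _ (by fun_prop)]
  rw [h1, h2]
  apply lintegral_congr
  intro a
  exact M_M0.lint_norm (fun s => F (a, s)) (hF.comp (by fun_prop))

end VD
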