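import Pool.Agent.Helper50.VD.St

open MeasureTheory Set Filter Topology
open scoped ENNReal

noncomputable section

namespace VD.M_M2

abbrev E4 := ℝ × E3

instance instHaar : (volume : Measure E4).IsAddHaarMeasure :=
  Measure.prod.instIsAddHaarMeasure (volume : Measure ℝ) (volume : Measure E3)

theorem finrank_E4 : Module.finrank ℝ E4 = 4 := by
  simp

/-- truncated cube of the inverse -/
def f3 (R : ℝ) : ℝ → ℝ := (Iio R).indicator fun t => (t ^ 3)⁻¹

theorem f3_nonneg {R t : ℝ} (ht : 0 ≤ t) : 0 ≤ f3 R t := by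
  unfold f3
  by_cases h : t ∈ Iio R
  · rw [indicator_of_mem h]; positivity
  · rw [indicator_of_notMem h]

theorem aux_eq (R : ℝ) : EqOn (fun t : ℝ => t ^ (4 - 1) • f3 R t)
    ((Ioo 0 R).indicator fun _ => (1 : ℝ)) (Ioi 0) := by
  intro t ht
  have ht' : (0 : ℝ) < t := ht
  simp only [smul_eq_mul]
  unfold f3
  by_cases h : t < R
  · rw [indicator_of_mem (show t ∈ Iio R from h), indicator_of_mem (show t ∈ Ioo 0 R from ⟨ht', h⟩)]
    have : t ^ 3 ≠ 0 := by positivity
    simp only [show 4 - 1 = 3 from rfl]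
    field_simp
  · rw [indicator_of_notMem (show t ∉ Iio R from h),
      indicator_of_notMem (show t ∉ Ioo 0 R from fun hh => h hh.2)]
    simp

theorem integrable_f3 (R : ℝ) : Integrable (fun Y : E4 => f3 R ‖Y‖) := by
  rw [integrable_fun_norm_addHaar (E := E4) volume (f := f3 R), finrank_E4]
  rw [integrableOn_congr_fun (aux_eq R) measurableSet_Ioi]
  apply Integrable.integrableOn
  rw [integrable_indicator_iff measurableSet_Ioo]
  simp

theorem integral_f3 {R : ℝ} (hR : 0 < R) : ∫ Y : E4, f3 R ‖Y‖ =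
    4 * (volume : Measure E4).real (Metric.ball 0 1) * R := by
  rw [integral_fun_norm_addHaar (E := E4) volume (f3 R), finrank_E4,
    setIntegral_congr_fun measurableSet_Ioi (aux_eq R), setIntegral_indicator measurableSet_Ioo]
  have : Ioi (0 : ℝ) ∩ Ioo 0 R = Ioo 0 R := by
    ext t; simp only [mem_inter_iff, mem_Ioi, mem_Ioo]; tauto
  rw [this]
  simp [hR.le]
  ring

end VD.M_M2

namespace VD

open M_M2

/-- singular integral in R x R^3 is small on small sets -/
theorem mM2 : StM2 := by
  refine ⟨4 * (volume : Measure E4).real (Metric.ball 0 1), ?_, ?_⟩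
  · have : 0 < (volume : Measure E4).real (Metric.ball 0 1) := by
      rw [Measure.real]
      apply ENNReal.toReal_pos
      · exact (Metric.measure_ball_pos _ _ one_pos).ne'
      · exact measure_ball_lt_top.ne
    positivity
  · intro D X R hD hR
    have hpt : ∀ Y : ℝ × E3, ENNReal.ofReal ((Real.sqrt (qd X Y) ^ 3)⁻¹) ≤
        ENNReal.ofReal (f3 R ‖X - Y‖) + ENNReal.ofReal ((R ^ 3)⁻¹) := by
      intro Y
      rcases eq_or_ne X Y with h | h
      · subst h
        simp [qd]
      · have hn : 0 < ‖X - Y‖ := by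
          rw [norm_pos_iff]; exact sub_ne_zero.mpr h
        have hle : ‖X - Y‖ ≤ Real.sqrt (qd X Y) := by
          apply Real.le_sqrt_of_sq_le
          rw [Prod.norm_def]
          unfold qd
          rcases max_cases ‖(X - Y).1‖ ‖(X - Y).2‖ with ⟨h1, _⟩ | ⟨h1, _⟩
          · rw [h1, Prod.fst_sub, Real.norm_eq_abs, sq_abs]
            nlinarith [sq_nonneg ‖X.2 - Y.2‖]
          · rw [h1, Prod.snd_sub]
            nlinarith [sq_nonneg (X.1 - Y.1)]
        by_cases hc : ‖X - Y‖ < R
        · refine le_trans (ENNReal.ofReal_le_ofReal ?_) (self_le_add_right _ _)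
          unfold f3
          rw [indicator_of_mem (show ‖X - Y‖ ∈ Iio R from hc)]
          gcongr
        · refine le_trans (ENNReal.ofReal_le_ofReal ?_) (self_le_add_left _ _)
          have : R ≤ Real.sqrt (qd X Y) := le_trans (not_lt.mp hc) hle
          gcongr
    calc ∫⁻ Y in D, ENNReal.ofReal ((Real.sqrt (qd X Y) ^ 3)⁻¹)
        ≤ ∫⁻ Y in D, (ENNReal.ofReal (f3 R ‖X - Y‖) + ENNReal.ofReal ((R ^ 3)⁻¹)) :=
          lintegral_mono fun Y => hpt Y
      _ = (∫⁻ Y in D, ENNReal.ofReal (f3 R ‖X - Y‖)) + ENNReal.ofReal ((R ^ 3)⁻¹) * volume D := by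
          rw [lintegral_add_right _ measurable_const, setLIntegral_const]
      _ ≤ (∫⁻ Y : ℝ × E3, ENNReal.ofReal (f3 R ‖X - Y‖)) +
            ENNReal.ofReal ((R ^ 3)⁻¹) * volume D := by
          gcongr
          exact Measure.restrict_le_self
      _ = _ := by
          congr 1
          rw [lintegral_sub_left_eq_self (fun Y : E4 => ENNReal.ofReal (f3 R ‖Y‖)) X,
            ← ofReal_integral_eq_lintegral_ofReal (integrable_f3 R)
              (ae_of_all _ fun Y => f3_nonneg (norm_nonneg _)), integral_f3 hR]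

end VD
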