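import Pool.Agent.Helper50.VD.St

open MeasureTheory Set Filter Topology
open scoped ENNReal

noncomputable section

namespace VD.M_P1a

theorem cont_mul_log : Continuous (fun p : ℝ × ℝ => p.2 * Real.log (p.1 ^ 2 + p.2 ^ 2)) := by
  rw [continuous_iff_continuousAt]
  intro p
  by_cases h : p.1 ^ 2 + p.2 ^ 2 = 0
  · have h1 : p.1 = 0 := by nlinarith [sq_nonneg p.1, sq_nonneg p.2]
    have h2 : p.2 = 0 := by nlinarith [sq_nonneg p.1, sq_nonneg p.2]
    have hp : p.2 * Real.log (p.1 ^ 2 + p.2 ^ 2) = 0 := by rw [h2]; ring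
    unfold ContinuousAt
    beta_reduce
    rw [hp]
    have hg : Continuous (fun q : ℝ × ℝ => 2 * |Real.sqrt (q.1 ^ 2 + q.2 ^ 2) *
        Real.log (Real.sqrt (q.1 ^ 2 + q.2 ^ 2))|) := by
      have := Real.continuous_mul_log.comp
        (show Continuous (fun q : ℝ × ℝ => Real.sqrt (q.1 ^ 2 + q.2 ^ 2)) by fun_prop)
      exact continuous_const.mul (continuous_abs.comp this)
    have hg0 : Tendsto (fun q : ℝ × ℝ => 2 * |Real.sqrt (q.1 ^ 2 + q.2 ^ 2) *
        Real.log (Real.sqrt (q.1 ^ 2 + q.2 ^ 2))|) (𝓝 p) (𝓝 0) := by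
      have := hg.tendsto p
      simpa [h] using this
    refine squeeze_zero_norm (fun q => ?_) hg0
    have hq : 0 ≤ q.1 ^ 2 + q.2 ^ 2 := by positivity
    rw [Real.log_sqrt hq, Real.norm_eq_abs, abs_mul, abs_mul, abs_div]
    have hle : |q.2| ≤ Real.sqrt (q.1 ^ 2 + q.2 ^ 2) := by
      rw [← Real.sqrt_sq_eq_abs]
      apply Real.sqrt_le_sqrt
      nlinarith [sq_nonneg q.1]
    rw [abs_of_nonneg (Real.sqrt_nonneg _), abs_two]
    nlinarith [abs_nonneg (Real.log (q.1 ^ 2 + q.2 ^ 2))]
  · exact continuousAt_snd.mul ((by fun_prop : ContinuousAt (fun p : ℝ × ℝ => p.1 ^ 2 + p.2 ^ 2) p).log h)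

theorem cont_arctan : Continuous (fun p : ℝ × ℝ => p.1 * Real.arctan (p.2 / p.1)) := by
  rw [continuous_iff_continuousAt]
  intro p
  by_cases h : p.1 = 0
  · have hp : p.1 * Real.arctan (p.2 / p.1) = 0 := by rw [h]; ring
    unfold ContinuousAt
    beta_reduce
    rw [hp]
    have hg0 : Tendsto (fun q : ℝ × ℝ => |q.1| * (Real.pi / 2)) (𝓝 p) (𝓝 0) := by
      have : Continuous (fun q : ℝ × ℝ => |q.1| * (Real.pi / 2)) := by fun_prop
      have := this.tendsto p
      simpa [h] using this
    refine squeeze_zero_norm (fun q => ?_) hg0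
    rw [Real.norm_eq_abs, abs_mul]
    have : |Real.arctan (q.2 / q.1)| ≤ Real.pi / 2 := by
      rw [abs_le]
      exact ⟨(Real.neg_pi_div_two_lt_arctan _).le, (Real.arctan_lt_pi_div_two _).le⟩
    exact mul_le_mul_of_nonneg_left this (abs_nonneg _)
  · exact continuousAt_fst.mul (Real.continuous_arctan.continuousAt.comp
      (continuousAt_snd.div continuousAt_fst h))

theorem cont_Ft : Continuous (fun p : ℝ × ℝ => Ft p.1 p.2) := by
  unfold Ft
  have h := (cont_mul_log.sub (continuous_snd.const_mul (2 : ℝ))).add (cont_arctan.const_mul 2)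
  refine h.congr fun p => ?_
  simp only [Pi.add_apply, Pi.sub_apply, Pi.mul_apply]
  ring

theorem cont_Vf : Continuous (fun p : ℝ × ℝ => Vf p.1 p.2) := by
  unfold Vf
  have h := (((continuous_fst.mul cont_mul_log).div_const 2).sub
    ((continuous_fst.mul continuous_snd).const_mul (3 / 2 : ℝ))).add
    (continuous_fst.mul cont_arctan)
  refine h.congr fun p => ?_
  simp only [Pi.add_apply, Pi.sub_apply, Pi.mul_apply]
  ring

/-- derivative of `Vf` along a line -/
theorem hasDerivAt_Vf {ξ u : ℝ → ℝ} {ξ' u' x : ℝ} (hξ : HasDerivAt ξ ξ' x) (hu : HasDerivAt u u' x)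
    (h0 : ξ x ≠ 0) :
    HasDerivAt (fun x => Vf (ξ x) (u x))
      (ξ' * (u x * Real.log (ξ x ^ 2 + u x ^ 2) / 2 - 3 / 2 * u x +
          2 * ξ x * Real.arctan (u x / ξ x)) +
        u' * (ξ x * Real.log (ξ x ^ 2 + u x ^ 2) / 2 - ξ x / 2)) x := by
  have hr : ξ x ^ 2 + u x ^ 2 ≠ 0 := by positivity
  unfold Vf
  have hlog := ((hξ.pow 2).add (hu.pow 2)).log hr
  have hat := (hu.div hξ h0).arctan
  have h1 := (((hξ.mul hu).mul hlog).div_const 2).sub ((hξ.mul hu).const_mul (3 / 2 : ℝ))
  have h2 := h1.add ((hξ.pow 2).mul hat)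
  refine HasDerivAt.congr_deriv h2 ?_
  have hr' : 1 + (u x / ξ x) ^ 2 ≠ 0 := by positivity
  simp only [Pi.pow_apply, Pi.add_apply, Pi.mul_apply, Pi.div_apply]
  push_cast
  have e1 : (1 / (1 + (u x / ξ x) ^ 2)) * ((u' * ξ x - u x * ξ') / ξ x ^ 2) =
      (u' * ξ x - u x * ξ') / (ξ x ^ 2 + u x ^ 2) := by
    field_simp
  rw [e1]
  generalize Real.log (ξ x ^ 2 + u x ^ 2) = l
  generalize Real.arctan (u x / ξ x) = θ
  field_simp
  ring

end VD.M_P1a

namespace VD

open M_P1a

/-- antiderivative of Ft along a line (FTC with removable singularities) -/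
theorem mP1a : StP1a := by
  intro x0 h0 x1 h1 X Z hx
  have hxx : x1 - x0 ≠ 0 := (sub_pos.mpr hx).ne'
  set n : ℝ := (x1 - x0) ^ 2 + (h0 - h1) ^ 2 with hn
  have hnpos : 0 < n := by have := sub_pos.mpr hx; positivity
  set d : ℝ := (x1 * h0 - x0 * h1) + (x1 - x0) * Z + (h0 - h1) * X with hd
  set u : ℝ → ℝ := fun x => h0 + (h1 - h0) * ((x - x0) / (x1 - x0)) + Z with hu
  set t : ℝ → ℝ := fun x => (x1 - x0) * (x + X) - (h0 - h1) * (u x) with ht
  set α : ℝ := (h1 - h0) / (x1 - x0) with hα
  have hud : ∀ x, HasDerivAt u α x := by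
    intro x
    have h := ((((hasDerivAt_id x).sub_const x0).div_const (x1 - x0)).const_mul (h1 - h0)).const_add h0
    have h' := h.add_const Z
    refine h'.congr_deriv ?_
    rw [hα]; ring
  have htd : ∀ x, HasDerivAt t ((x1 - x0) - (h0 - h1) * α) x := by
    intro x
    have h := (((hasDerivAt_id x).add_const X).const_mul (x1 - x0)).sub ((hud x).const_mul (h0 - h1))
    refine h.congr_deriv ?_
    ring
  have hξd : ∀ x, HasDerivAt (fun x => x + X) 1 x := fun x => (hasDerivAt_id x).add_const X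
  have hline : ∀ x, (x1 - x0) * u x = (h1 - h0) * (x + X) + d := by
    intro x
    rw [hu, hd]
    field_simp
    ring
  have htn : ∀ x, t x ^ 2 + d ^ 2 = n * ((x + X) ^ 2 + u x ^ 2) := by
    intro x
    have h2 := hline x
    have h3 : d = (x1 - x0) * u x - (h1 - h0) * (x + X) := by linarith
    rw [h3, ht, hn]
    ring
  have hucont : Continuous u := by rw [hu]; fun_prop
  have htcont : Continuous t := by rw [ht]; fun_prop
  -- antiderivative
  set E : ℝ → ℝ := fun x => Vf (x + X) (u x) +
    d / (2 * n) * (t x * Real.log ((x + X) ^ 2 + u x ^ 2)) +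
    d * |d| / n * Real.arctan (t x / |d|) - 3 / 2 * (d / (x1 - x0)) * x with hE
  have hEcont : Continuous E := by
    have c1 : Continuous (fun x => Vf (x + X) (u x)) :=
      cont_Vf.comp ((continuous_id.add continuous_const).prodMk hucont)
    have c2 : Continuous (fun x => d / (2 * n) * (t x * Real.log ((x + X) ^ 2 + u x ^ 2))) := by
      by_cases hd0 : d = 0
      · rw [hd0]; simp only [zero_div, zero_mul]; exact continuous_const
      · refine continuous_const.mul (htcont.mul (Continuous.log (by fun_prop) fun x => ?_))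
        intro h
        have h2 := htn x
        rw [h, mul_zero] at h2
        have : 0 < d ^ 2 := by positivity
        nlinarith [sq_nonneg (t x)]
    have c3 : Continuous (fun x => d * |d| / n * Real.arctan (t x / |d|)) :=
      continuous_const.mul (Real.continuous_arctan.comp (htcont.div_const _))
    exact ((c1.add c2).add c3).sub (continuous_const.mul continuous_id)
  have hFcont : Continuous (fun x => Ft (x + X) (u x)) :=
    cont_Ft.comp ((continuous_id.add continuous_const).prodMk hucont)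
  have hderiv : ∀ x ∈ Ioo x0 x1 \ {-X}, HasDerivAt E (Ft (x + X) (u x)) x := by
    intro x hx'
    have hξ0 : x + X ≠ 0 := by
      intro h
      exact hx'.2 (by simp; linarith)
    have hr : (x + X) ^ 2 + u x ^ 2 ≠ 0 := by positivity
    have k1 := hasDerivAt_Vf (hξd x) (hud x) hξ0
    have hlog := (((hξd x).pow 2).add ((hud x).pow 2)).log hr
    have k2 := ((htd x).mul hlog).const_mul (d / (2 * n))
    have k3 := (((htd x).div_const |d|).arctan).const_mul (d * |d| / n)
    have k4 := (hasDerivAt_id x).const_mul (3 / 2 * (d / (x1 - x0)))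
    have k5 := ((k1.add k2).add k3).sub k4
    refine HasDerivAt.congr_deriv k5 ?_
    have hαe : (x1 - x0) * α = h1 - h0 := by rw [hα]; field_simp
    have hT : (x1 - x0) * ((x1 - x0) - (h0 - h1) * α) = n := by
      rw [hn]
      have : (x1 - x0) * ((x1 - x0) - (h0 - h1) * α) =
          (x1 - x0) ^ 2 - (h0 - h1) * ((x1 - x0) * α) := by ring
      rw [this, hαe]; ring
    have harc : d * |d| / n * (1 / (1 + (t x / |d|) ^ 2) *
        (((x1 - x0) - (h0 - h1) * α) / |d|)) =
        d / (x1 - x0) * (d ^ 2 / (n * ((x + X) ^ 2 + u x ^ 2))) := by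
      by_cases hd0 : d = 0
      · rw [hd0]; simp
      · have habs : |d| ≠ 0 := abs_ne_zero.mpr hd0
        have hT' : ((x1 - x0) - (h0 - h1) * α) = n / (x1 - x0) := by
          rw [eq_div_iff hxx, ← hT]; ring
        rw [hT', ← htn x]
        have h6 : 1 + (t x / |d|) ^ 2 = (t x ^ 2 + d ^ 2) / d ^ 2 := by
          rw [div_pow, sq_abs]
          field_simp
          ring
        have h7 : t x ^ 2 + d ^ 2 ≠ 0 := by positivity
        rw [h6]
        field_simp
    simp only [Pi.add_apply, Pi.pow_apply]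
    rw [harc]
    have hu' : u x = α * (x + X) + d / (x1 - x0) := by
      have := hline x
      rw [hα]
      field_simp
      linarith
    have ht' : t x = (x1 - x0) * ((x + X) + α * u x) := by
      have : t x = (x1 - x0) * (x + X) - (h0 - h1) * (u x) := rfl
      have h2 : (x1 - x0) * ((x + X) + α * u x) = (x1 - x0) * (x + X) + (x1 - x0) * α * u x := by ring
      rw [this, h2, hαe]
      ring
    have hn' : n = (x1 - x0) ^ 2 * (1 + α ^ 2) := by
      rw [← hT]
      have : h0 - h1 = -((x1 - x0) * α) := by rw [hαe]; ring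
      rw [this]; ring
    have hd' : d = (x1 - x0) * (d / (x1 - x0)) := by field_simp
    have hm : h0 - h1 = -((x1 - x0) * α) := by rw [hαe]; ring
    unfold Ft
    rw [ht', hn', hm]
    generalize Real.log ((x + X) ^ 2 + u x ^ 2) = l
    generalize Real.arctan (u x / (x + X)) = θ
    generalize hγ : d / (x1 - x0) = γ at hu' hd' ⊢
    rw [hd']
    rw [hu'] at hr ⊢
    generalize x + X = ξ at hr ⊢
    generalize x1 - x0 = w at hxx ⊢
    have hα2 : (1 + α ^ 2) ≠ 0 := by positivity
    clear_value α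
    push_cast
    field_simp
    ring
  have key := integral_eq_of_hasDerivAt_off_countable_of_le E (fun x => Ft (x + X) (u x)) hx.le
    (countable_singleton (-X)) hEcont.continuousOn hderiv (hFcont.intervalIntegrable _ _)
  have hu0 : u x0 = h0 + Z := by simp [hu]
  have hu1 : u x1 = h1 + Z := by simp only [hu]; field_simp; ring
  calc ∫ x in x0..x1, Ft (x + X) (h0 + (h1 - h0) * ((x - x0) / (x1 - x0)) + Z)
      = E x1 - E x0 := key
    _ = _ := by
      simp only [hE, hu0, hu1, ht]
      unfold Wf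
      simp only [← hn, ← hd]
      field_simp
      ring

end VD
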