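import Pool.Agent.Helper50.VD.St

open MeasureTheory Set Filter Topology
open scoped ENNReal

noncomputable section

namespace VD.M_R4

theorem N_shift (a S y s : ℝ) : N (a, S) (y, s) = N (0, S) (y - a, s) := by
  unfold N G
  simp only
  have h : (a - y) ^ 2 = (0 - (y - a)) ^ 2 := by ring
  rw [h]

theorem N_neg (S ξ s : ℝ) : N (0, S) (-ξ, s) = N (0, S) (ξ, s) := by
  unfold N G
  simp only
  have h : (0 - -ξ) ^ 2 = (0 - ξ) ^ 2 := by ring
  rw [h]

theorem N_cont (S s : ℝ) (hS : 0 ≤ S) (hs : 0 < s) (hne : s ≠ S) :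
    Continuous (fun ξ => N (0, S) (ξ, s)) := by
  unfold N G
  simp only
  by_cases h0 : S = 0
  · simp only [h0, if_true]
    refine continuous_const.div (by fun_prop) fun ξ => ?_
    positivity
  · simp only [h0, if_false]
    have hp : 0 < (S - s) ^ 2 := by
      have : S - s ≠ 0 := sub_ne_zero.mpr (Ne.symm hne)
      positivity
    refine ((Continuous.log ?_ ?_).div_const _).div_const _
    · refine Continuous.div (by fun_prop) (by fun_prop) fun ξ => ?_
      positivity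
    · intro ξ
      have h1 : 0 < (0 - ξ) ^ 2 + (S + s) ^ 2 := by positivity
      have h2 : 0 < (0 - ξ) ^ 2 + (S - s) ^ 2 := by positivity
      exact (div_pos h1 h2).ne'

theorem N_cont' (a S s : ℝ) (hS : 0 ≤ S) (hs : 0 < s) (hne : s ≠ S) :
    Continuous (fun y => N (a, S) (y, s)) := by
  simp_rw [N_shift a S _ s]
  exact (N_cont S s hS hs hne).comp (continuous_id.sub continuous_const)

theorem N_nonneg (hK1 : StK1) (a S y s : ℝ) (hS : 0 ≤ S) (hs : 0 < s) (hne : s ≠ S) :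
    0 ≤ N (a, S) (y, s) :=
  (hK1 (a, S) (y, s) hS hs (fun h => hne (by rw [Prod.mk.injEq] at h; exact h.2.symm))).1.le

/-- `N` with pole at height one decreases in the distance -/
theorem N_one_anti (s : ℝ) (hs : 0 < s) (hs1 : s < 1) {ξ ξ' : ℝ} (h : ξ ^ 2 ≤ ξ' ^ 2) :
    N (0, 1) (ξ', s) ≤ N (0, 1) (ξ, s) := by
  unfold N G
  simp only [one_ne_zero, if_false, div_one]
  have hp : 0 < (1 - s) ^ 2 := by
    have : 0 < 1 - s := by linarith
    positivity
  have hpi := Real.pi_pos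
  have h1 : 0 < (0 - ξ) ^ 2 + (1 + s) ^ 2 := by positivity
  have h2 : 0 < (0 - ξ) ^ 2 + (1 - s) ^ 2 := by positivity
  have h3 : 0 < (0 - ξ') ^ 2 + (1 + s) ^ 2 := by positivity
  have h4 : 0 < (0 - ξ') ^ 2 + (1 - s) ^ 2 := by positivity
  have key : ((0 - ξ') ^ 2 + (1 + s) ^ 2) / ((0 - ξ') ^ 2 + (1 - s) ^ 2) ≤
      ((0 - ξ) ^ 2 + (1 + s) ^ 2) / ((0 - ξ) ^ 2 + (1 - s) ^ 2) := by
    rw [div_le_div_iff₀ h4 h2]
    nlinarith [mul_nonneg (sub_nonneg.mpr h) hs.le]
  have := Real.log_le_log (div_pos h3 h4) key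
  gcongr

/-- polynomial inequality behind the monotonicity of the symmetrised kernel -/
theorem poly_mono {X p g w w' : ℝ} (hp : 0 ≤ p) (hpX : p ≤ X) (hg : 0 ≤ g) (hw : 0 ≤ w)
    (hww : w ≤ w') (hw' : w' ≤ (X - p) ^ 2) :
    (2 * w + g) * (w' ^ 2 + 2 * (p ^ 2 - X ^ 2) * w' + (X ^ 2 + p ^ 2) ^ 2) ≤
      (2 * w' + g) * (w ^ 2 + 2 * (p ^ 2 - X ^ 2) * w + (X ^ 2 + p ^ 2) ^ 2) := by
  have hX : 0 ≤ X := hp.trans hpX
  set W := (X - p) ^ 2 with hW
  have hW0 : 0 ≤ W := by positivity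
  have h1 : w * w' ≤ W ^ 2 := by nlinarith
  have h2 : w + w' ≤ 2 * W := by linarith
  have h3 : 0 ≤ 2 * (X ^ 2 + p ^ 2) ^ 2 - 2 * (p ^ 2 - X ^ 2) * g - 2 * W ^ 2 - g * (2 * W) := by
    have : 2 * (X ^ 2 + p ^ 2) ^ 2 - 2 * (p ^ 2 - X ^ 2) * g - 2 * W ^ 2 - g * (2 * W) =
        2 * (4 * X * p * (X ^ 2 + p ^ 2 - X * p) + 2 * p * (X - p) * g) := by
      rw [hW]; ring
    rw [this]
    have h4 : 0 ≤ X ^ 2 + p ^ 2 - X * p := by nlinarith [sq_nonneg (X - p), mul_nonneg hX hp]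
    have h5 : 0 ≤ X - p := by linarith
    positivity
  have h6 : 0 ≤ 2 * (X ^ 2 + p ^ 2) ^ 2 - 2 * (p ^ 2 - X ^ 2) * g - 2 * (w * w') - g * (w + w') := by
    nlinarith [mul_le_mul_of_nonneg_left h2 hg]
  have h7 : 0 ≤ (w' - w) *
      (2 * (X ^ 2 + p ^ 2) ^ 2 - 2 * (p ^ 2 - X ^ 2) * g - 2 * (w * w') - g * (w + w')) :=
    mul_nonneg (by linarith) h6
  nlinarith [h7]

/-- the symmetrised kernel increases up to `X + S - s` -/
theorem sym_mono (X S s y y' : ℝ) (hS : 0 ≤ S) (hSs : S < s) (hs : s < 1) (hX : 1 ≤ X)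
    (hy : 0 ≤ y) (hyy : y ≤ y') (hy' : y' ≤ X + S - s) :
    N (X, S) (y, s) + N (X, S) (-y, s) ≤ N (X, S) (y', s) + N (X, S) (-y', s) := by
  have hs0 : 0 < s := lt_of_le_of_lt hS hSs
  have hp0 : 0 < s - S := by linarith
  have hpX : s - S ≤ X := by linarith
  have hw' : y' ^ 2 ≤ (X - (s - S)) ^ 2 := by
    apply pow_le_pow_left₀ (hy.trans hyy); linarith
  have hww : y ^ 2 ≤ y' ^ 2 := pow_le_pow_left₀ hy hyy 2
  have hpi := Real.pi_pos
  have hF : ∀ (c v : ℝ), ((X - v) ^ 2 + c ^ 2) * ((X - -v) ^ 2 + c ^ 2) =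
      (v ^ 2) ^ 2 + 2 * (c ^ 2 - X ^ 2) * v ^ 2 + (X ^ 2 + c ^ 2) ^ 2 := by
    intro c v; ring
  have hpos : ∀ (c v : ℝ), 0 < c → 0 < (X - v) ^ 2 + c ^ 2 := by
    intro c v hc; positivity
  by_cases h0 : S = 0
  · subst h0
    unfold N
    simp only [if_true]
    have e : ∀ v : ℝ, s / (Real.pi * ((X - v) ^ 2 + s ^ 2)) + s / (Real.pi * ((X - -v) ^ 2 + s ^ 2)) =
        s / Real.pi * ((2 * v ^ 2 + (2 * X ^ 2 + 2 * s ^ 2)) /
          ((v ^ 2) ^ 2 + 2 * (s ^ 2 - X ^ 2) * v ^ 2 + (X ^ 2 + s ^ 2) ^ 2)) := by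
      intro v
      rw [← hF]
      have h1 := hpos s v hs0
      have h2 := hpos s (-v) hs0
      field_simp
      ring
    rw [e, e]
    have h1 := mul_pos (hpos s y hs0) (hpos s (-y) hs0)
    have h2 := mul_pos (hpos s y' hs0) (hpos s (-y') hs0)
    rw [hF] at h1 h2
    apply mul_le_mul_of_nonneg_left _ (by positivity)
    rw [div_le_div_iff₀ h1 h2]
    have := poly_mono (X := X) (p := s) (g := 2 * X ^ 2 + 2 * s ^ 2) (w := y ^ 2) (w' := y' ^ 2)
      hs0.le (by linarith) (by positivity) (by positivity) hww (by simpa using hw')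
    exact this
  · have hS0 : 0 < S := lt_of_le_of_ne hS (Ne.symm h0)
    unfold N G
    simp only [h0, if_false]
    have e : ∀ v : ℝ, Real.log (((X - v) ^ 2 + (S + s) ^ 2) / ((X - v) ^ 2 + (S - s) ^ 2)) /
          (4 * Real.pi) / S +
        Real.log (((X - -v) ^ 2 + (S + s) ^ 2) / ((X - -v) ^ 2 + (S - s) ^ 2)) /
          (4 * Real.pi) / S =
        Real.log (1 + 4 * S * s * ((2 * v ^ 2 + (2 * X ^ 2 + (S + s) ^ 2 + (s - S) ^ 2)) /
          ((v ^ 2) ^ 2 + 2 * ((s - S) ^ 2 - X ^ 2) * v ^ 2 + (X ^ 2 + (s - S) ^ 2) ^ 2))) /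
          (4 * Real.pi * S) := by
      intro v
      have h1 := hpos (s - S) v hp0
      have h2 := hpos (s - S) (-v) hp0
      have h3 := hpos (S + s) v (by linarith)
      have h4 := hpos (S + s) (-v) (by linarith)
      have h5 : (S - s) ^ 2 = (s - S) ^ 2 := by ring
      rw [h5, ← add_div, ← add_div, ← Real.log_mul (div_pos h3 h1).ne' (div_pos h4 h2).ne', div_div]
      congr 2
      rw [← hF]
      field_simp
      ring
    rw [e, e]
    have h1 := mul_pos (hpos (s - S) y hp0) (hpos (s - S) (-y) hp0)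
    have h2 := mul_pos (hpos (s - S) y' hp0) (hpos (s - S) (-y') hp0)
    rw [hF] at h1 h2
    apply div_le_div_of_nonneg_right _ (by positivity)
    apply Real.log_le_log
    · have : 0 ≤ 4 * S * s * ((2 * y ^ 2 + (2 * X ^ 2 + (S + s) ^ 2 + (s - S) ^ 2)) /
          ((y ^ 2) ^ 2 + 2 * ((s - S) ^ 2 - X ^ 2) * y ^ 2 + (X ^ 2 + (s - S) ^ 2) ^ 2)) := by
        apply mul_nonneg (by positivity)
        apply div_nonneg (by positivity) h1.le
      linarith
    · gcongr 1 + 4 * S * s * ?_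
      rw [div_le_div_iff₀ h1 h2]
      exact poly_mono (X := X) (p := s - S) (g := 2 * X ^ 2 + (S + s) ^ 2 + (s - S) ^ 2)
        (w := y ^ 2) (w' := y' ^ 2) hp0.le hpX (by positivity) (by positivity) hww hw'

/-- the symmetrised kernel with pole `(5/3, 1)` decreases beyond `5/3` -/
theorem sym_anti (s y y' : ℝ) (hs : 0 < s) (hs1 : s < 1) (hy : 5 / 3 ≤ y) (hyy : y ≤ y') :
    N (5 / 3, 1) (y', s) + N (5 / 3, 1) (-y', s) ≤ N (5 / 3, 1) (y, s) + N (5 / 3, 1) (-y, s) := by
  rw [N_shift _ _ y', N_shift _ _ (-y'), N_shift _ _ y, N_shift _ _ (-y)]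
  apply add_le_add
  · apply N_one_anti s hs hs1
    apply pow_le_pow_left₀ <;> linarith
  · apply N_one_anti s hs hs1
    have h1 : (-y - 5 / 3) ^ 2 = (y + 5 / 3) ^ 2 := by ring
    have h2 : (-y' - 5 / 3) ^ 2 = (y' + 5 / 3) ^ 2 := by ring
    rw [h1, h2]
    apply pow_le_pow_left₀ <;> linarith

theorem upper (hK1 : StK1) (X S s l : ℝ) (hS : 0 ≤ S) (hs : 0 < s) (hne : s ≠ S) (hl : 0 ≤ l)
    (hlX : l - X ≤ S - s) (hi : IntegrableOn (fun ξ => N (0, S) (ξ, s)) (Iic (S - s))) :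
    ∫ y in (-l)..l, N (X, S) (y, s) ≤ ∫ ξ in Iic (S - s), N (0, S) (ξ, s) := by
  simp_rw [N_shift X S _ s]
  rw [intervalIntegral.integral_comp_sub_right (fun ξ => N (0, S) (ξ, s)) X,
    intervalIntegral.integral_of_le (by linarith)]
  apply setIntegral_mono_set hi
  · exact ae_of_all _ fun ξ => N_nonneg hK1 0 S ξ s hS hs hne
  · exact ae_of_all _ fun ξ hξ => hξ.2.trans hlX

theorem lower (hR2 : StR2) (s l : ℝ) (hs : 0 < s) (hs1 : s < 1) (hl : 7 / 2 ≤ l) :
    0.7647 * s ≤ ∫ y in (-l)..l, N (5 / 3, 1) (y, s) := by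
  simp_rw [N_shift (5 / 3) 1 _ s]
  rw [intervalIntegral.integral_comp_sub_right (fun ξ => N (0, 1) (ξ, s)) (5 / 3)]
  have h := hR2.2.2.1 s hs hs1 (l - 5 / 3) (l + 5 / 3) (by linarith) (by linarith)
  have e : -(l + 5 / 3) = -l - 5 / 3 := by ring
  rw [e] at h
  refine le_trans ?_ h
  have h1 : 1 / (l - 5 / 3) ≤ 6 / 11 := by
    rw [div_le_div_iff₀ (by linarith) (by norm_num)]; linarith
  have h2 : 1 / (l + 5 / 3) ≤ 6 / 31 := by
    rw [div_le_div_iff₀ (by linarith) (by norm_num)]; linarith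
  have hpi := Real.pi_gt_d4
  have hpi0 := Real.pi_pos
  have h3 : s / Real.pi * (1 / (l - 5 / 3) + 1 / (l + 5 / 3)) ≤ s / Real.pi * (252 / 341) := by
    apply mul_le_mul_of_nonneg_left _ (by positivity)
    linarith
  have h4 : s / Real.pi * (252 / 341) ≤ 0.2353 * s := by
    rw [div_mul_eq_mul_div, div_le_iff₀ hpi0]
    nlinarith
  linarith

theorem at_a (hK1 : StK1) (hR2 : StR2) (X S s : ℝ) (hS : 0 ≤ S) (hSs : S < s) (hs1 : s < 1)
    (hX : 7 / 2 ≤ X) :
    (∫ y in (-(5 / 3 : ℝ))..(5 / 3), N (X, S) (y, s)) -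
      (∫ y in (-(5 / 3 : ℝ))..(5 / 3), N (5 / 3, 1) (y, s)) ≤ -(0.2924 * s) := by
  have hs : 0 < s := lt_of_le_of_lt hS hSs
  have hpi := Real.pi_gt_d4
  have hpi0 := Real.pi_pos
  have h1 : ∫ y in (-(5 / 3 : ℝ))..(5 / 3), N (X, S) (y, s) ≤
      ∫ y in (-(5 / 3 : ℝ))..(5 / 3), s / Real.pi * (1 / (X - y) ^ 2) := by
    apply intervalIntegral.integral_mono_on (by norm_num)
    · exact (N_cont' X S s hS hs hSs.ne').intervalIntegrable _ _
    · apply ContinuousOn.intervalIntegrable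
      rw [uIcc_of_le (by norm_num)]
      apply ContinuousOn.mul continuousOn_const
      refine ContinuousOn.div continuousOn_const (by fun_prop) fun y hy => ?_
      have : 0 < X - y := by have := hy.2; linarith
      positivity
    · intro y hy
      have hy2 : 0 < X - y := by have := hy.2; linarith
      have h := (hK1 (X, S) (y, s) hS hs
        (fun h => hSs.ne' (by rw [Prod.mk.injEq] at h; exact h.2.symm))).2.2.1
      refine h.trans ?_
      simp only
      rw [div_mul_div_comm, mul_one]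
      apply div_le_div_of_nonneg_left hs.le (by positivity)
      apply mul_le_mul_of_nonneg_left _ hpi0.le
      nlinarith [sq_nonneg (S - s)]
  have h2 : ∫ y in (-(5 / 3 : ℝ))..(5 / 3), s / Real.pi * (1 / (X - y) ^ 2) =
      s / Real.pi * (1 / (X - 5 / 3) - 1 / (X + 5 / 3)) := by
    rw [intervalIntegral.integral_const_mul]
    congr 1
    have hd : ∀ y ∈ uIcc (-(5 / 3 : ℝ)) (5 / 3),
        HasDerivAt (fun y : ℝ => (X - y)⁻¹) (1 / (X - y) ^ 2) y := by
      intro y hy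
      rw [uIcc_of_le (by norm_num)] at hy
      have : X - y ≠ 0 := by have := hy.2; intro hh; linarith
      have h := ((hasDerivAt_id y).const_sub X).inv this
      refine h.congr_deriv ?_
      simp
    rw [intervalIntegral.integral_eq_sub_of_hasDerivAt hd]
    · rw [sub_neg_eq_add, one_div, one_div]
    · apply ContinuousOn.intervalIntegrable
      rw [uIcc_of_le (by norm_num)]
      refine ContinuousOn.div continuousOn_const (by fun_prop) fun y hy => ?_
      have : 0 < X - y := by have := hy.2; linarith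
      positivity
  have h3 : 1 / (X - 5 / 3) - 1 / (X + 5 / 3) ≤ 6 / 11 - 6 / 31 := by
    have a1 : 0 < X - 5 / 3 := by linarith
    have a2 : 0 < X + 5 / 3 := by linarith
    have : 1 / (X - 5 / 3) - 1 / (X + 5 / 3) = (10 / 3) / ((X - 5 / 3) * (X + 5 / 3)) := by
      rw [div_sub_div _ _ a1.ne' a2.ne']; congr 1; ring
    rw [this, div_le_iff₀ (by positivity)]
    nlinarith
  have h4 := hR2.2.2.2 s hs hs1 (10 / 3) (by norm_num)
  have h5 : ∫ y in (-(5 / 3 : ℝ))..(5 / 3), N (5 / 3, 1) (y, s) =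
      ∫ ξ in (-(10 / 3 : ℝ))..0, N (0, 1) (ξ, s) := by
    simp_rw [N_shift (5 / 3) 1 _ s]
    rw [intervalIntegral.integral_comp_sub_right (fun ξ => N (0, 1) (ξ, s)) (5 / 3)]
    norm_num
  rw [h5]
  rw [h2] at h1
  have h6 : s / Real.pi * (1 / (X - 5 / 3) - 1 / (X + 5 / 3)) ≤ s / Real.pi * (6 / 11 - 6 / 31) :=
    mul_le_mul_of_nonneg_left h3 (by positivity)
  have h7 : s / Real.pi * (6 / 11 - 6 / 31) + s / Real.pi * (1 / (10 / 3)) ≤ 0.2076 * s := by
    rw [← mul_add, div_mul_eq_mul_div, div_le_iff₀ hpi0]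
    nlinarith
  linarith

end VD.M_R4

namespace VD

open M_R4

/-- one row of the wide comparison (convexity in the row length) -/
theorem mR4 (hK1 : StK1) (_hK1c : StK1c) (hR2 : StR2) : StR4 := by
  intro X S s l hS hS1 hXS hs hs1 hne hl53 hl hXl
  have c1 := N_cont' X S s hS hs hne
  have c2 := N_cont' (5 / 3) 1 s zero_le_one hs hs1.ne
  have hsub : ∀ t : ℝ, (∫ y in (-t)..t, (N (X, S) (y, s) - N (5 / 3, 1) (y, s))) =
      (∫ y in (-t)..t, N (X, S) (y, s)) - ∫ y in (-t)..t, N (5 / 3, 1) (y, s) := fun t =>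
    intervalIntegral.integral_sub (c1.intervalIntegrable _ _) (c2.intervalIntegrable _ _)
  by_cases hsS : s < S
  · rw [if_pos hsS, hsub]
    obtain ⟨hi, hu⟩ := hR2.2.1 S s hs hsS
    have h1 := upper hK1 X S s l hS hs hne (by linarith) (by linarith) hi
    have h2 := lower hR2 s l hs hs1 (by have := hXl hsS; linarith)
    linarith
  · rw [if_neg hsS]
    have hSs : S < s := lt_of_le_of_ne (not_lt.mp hsS) (Ne.symm hne)
    have hX : 7 / 2 ≤ X := by linarith
    set h : ℝ → ℝ := fun y => N (X, S) (y, s) - N (5 / 3, 1) (y, s) with hh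
    have hc : Continuous h := c1.sub c2
    set f : ℝ → ℝ := fun y => h y + h (-y) with hf
    have hfc : Continuous f := hc.add (hc.comp continuous_neg)
    have hfm : ∀ y y', 5 / 3 ≤ y → y ≤ y' → y' ≤ X + S - s → f y ≤ f y' := by
      intro y y' hy hyy hy'
      have a1 := sym_mono X S s y y' hS hSs hs1 (by linarith) (by linarith) hyy hy'
      have a2 := sym_anti s y y' hs hs1 hy hyy
      simp only [hf, hh]
      linarith
    have hD : ∀ t t' : ℝ, (∫ y in (-t')..t', h y) = (∫ y in (-t)..t, h y) + ∫ y in t..t', f y := by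
      intro t t'
      have i := fun a b => hc.intervalIntegrable (μ := volume) a b
      have e1 : ∫ y in t..t', f y = (∫ y in t..t', h y) + ∫ y in t..t', h (-y) :=
        intervalIntegral.integral_add (i _ _) ((hc.comp continuous_neg).intervalIntegrable _ _)
      have e2 : ∫ y in t..t', h (-y) = ∫ y in (-t')..(-t), h y :=
        intervalIntegral.integral_comp_neg h
      rw [e1, e2]
      have e3 := intervalIntegral.integral_add_adjacent_intervals (i (-t') (-t)) (i (-t) t)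
      have e4 := intervalIntegral.integral_add_adjacent_intervals (i (-t') t) (i t t')
      linarith
    have hDL : (∫ y in (-(X + S - s))..(X + S - s), h y) ≤ 1 / 4 * (1 + S / s) - 0.7647 * s := by
      rw [hsub]
      obtain ⟨hi, hu⟩ := hR2.1 S s hS hSs.le hs
      have h1 := upper hK1 X S s (X + S - s) hS hs hne (by linarith) (by linarith) hi
      have h2 := lower hR2 s (X + S - s) hs hs1 (by linarith)
      linarith
    have hD53 : (∫ y in (-(5 / 3 : ℝ))..(5 / 3), h y) ≤ -(0.2924 * s) := by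
      rw [hsub]
      exact at_a hK1 hR2 X S s hS hSs hs1 hX
    rcases le_or_gt 0 (f l) with h0 | h0
    · refine le_trans ?_ (le_max_right _ _)
      refine le_trans ?_ hDL
      rw [hD l (X + S - s)]
      have : 0 ≤ ∫ y in l..(X + S - s), f y := by
        apply intervalIntegral.integral_nonneg hl
        intro y hy
        exact h0.trans (hfm l y hl53 hy.1 hy.2)
      linarith
    · refine le_trans ?_ (le_max_left _ _)
      refine le_trans ?_ hD53
      rw [hD (5 / 3) l]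
      have : ∫ y in (5 / 3 : ℝ)..l, f y ≤ 0 := by
        have h9 : 0 ≤ ∫ y in (5 / 3 : ℝ)..l, -f y := by
          apply intervalIntegral.integral_nonneg hl53
          intro y hy
          have := (hfm y l hy.1 hy.2 hl).trans h0.le
          linarith
        rw [intervalIntegral.integral_neg] at h9
        linarith
      linarith

end VD
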