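import Pool.Agent.Helper50.VD.St

open MeasureTheory Set Filter Topology
open scoped ENNReal

noncomputable section

namespace VD.M_X2

theorem meas_rfl (l : ℝ) : Measurable (rfl' l) := by
  unfold rfl'
  fun_prop

theorem rfl_rfl (l : ℝ) (z : ℝ × ℝ) : rfl' l (rfl' l z) = z := by
  unfold rfl'
  ext
  · simp
  · simp

/-- strict monotonicity of the kernel in the horizontal distance -/
theorem N_lt {z z' y : ℝ × ℝ} (hz : 0 < z.2) (hz' : z'.2 = z.2) (hy : 0 < y.2) (hne : z ≠ y)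
    (h : (z.1 - y.1) ^ 2 < (z'.1 - y.1) ^ 2) : N z' y < N z y := by
  unfold N G
  rw [hz', if_neg hz.ne', if_neg hz.ne']
  have hpi := Real.pi_pos
  have h0 : 0 < (z.1 - y.1) ^ 2 + (z.2 - y.2) ^ 2 := by
    by_contra hc
    have h1 : (z.1 - y.1) ^ 2 = 0 := by nlinarith [sq_nonneg (z.1 - y.1), sq_nonneg (z.2 - y.2)]
    have h2 : (z.2 - y.2) ^ 2 = 0 := by nlinarith [sq_nonneg (z.1 - y.1), sq_nonneg (z.2 - y.2)]
    apply hne
    ext
    · exact sub_eq_zero.mp (pow_eq_zero_iff (two_ne_zero) |>.mp h1)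
    · exact sub_eq_zero.mp (pow_eq_zero_iff (two_ne_zero) |>.mp h2)
  have h0' : 0 < (z'.1 - y.1) ^ 2 + (z.2 - y.2) ^ 2 := by linarith
  have h3 : 0 < z.2 * y.2 := mul_pos hz hy
  have h4 : 0 < (z'.1 - y.1) ^ 2 + (z.2 + y.2) ^ 2 := by nlinarith
  have key : ((z'.1 - y.1) ^ 2 + (z.2 + y.2) ^ 2) / ((z'.1 - y.1) ^ 2 + (z.2 - y.2) ^ 2) <
      ((z.1 - y.1) ^ 2 + (z.2 + y.2) ^ 2) / ((z.1 - y.1) ^ 2 + (z.2 - y.2) ^ 2) := by
    rw [div_lt_div_iff₀ h0' h0]
    nlinarith [mul_pos h3 (sub_pos.mpr h)]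
  have := Real.log_lt_log (div_pos h4 h0') key
  gcongr

/-- admissible sets -/
structure Ok (A : Set (ℝ × ℝ)) : Prop where
  m : MeasurableSet A
  s : A ⊆ Om
  v : volume A < ∞
  n : nu A < ∞

theorem Ok.mono {A B : Set (ℝ × ℝ)} (hA : Ok A) (hB : MeasurableSet B) (h : B ⊆ A) : Ok B :=
  ⟨hB, h.trans hA.s, (measure_mono h).trans_lt hA.v, (measure_mono h).trans_lt hA.n⟩

theorem Ok.union {A B : Set (ℝ × ℝ)} (hA : Ok A) (hB : Ok B) : Ok (A ∪ B) :=
  ⟨hA.m.union hB.m, union_subset hA.s hB.s, measure_union_lt_top hA.v hB.v,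
    measure_union_lt_top hA.n hB.n⟩

theorem Ok.refl (hK5 : StK5) {A : Set (ℝ × ℝ)} (hA : Ok A) (l : ℝ) : Ok (rfl' l ⁻¹' A) := by
  obtain ⟨_, h2, h3, _⟩ := hK5.2.2 A l hA.m hA.s
  refine ⟨meas_rfl l hA.m, fun z hz => ?_, by rw [h3]; exact hA.v, by rw [h2]; exact hA.n⟩
  exact (hA.s (show rfl' l z ∈ A from hz) : (0 : ℝ) < (rfl' l z).2)

theorem BG_comm (hK9 : StK9) {A C : Set (ℝ × ℝ)} (hA : Ok A) (hC : Ok C) : BG A C = BG C A :=
  (hK9.1 A C hA.m hC.m hA.s hC.s hA.v hC.v hA.n hC.n).2.1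

theorem BG_int (hK9 : StK9) {A C : Set (ℝ × ℝ)} (hA : Ok A) (hC : Ok C) :
    IntegrableOn (fun z : ℝ × ℝ => z.2 * phi C z) A :=
  (hK9.1 A C hA.m hC.m hA.s hC.s hA.v hC.v hA.n hC.n).1

theorem BG_union_left (hK9 : StK9) {A B C : Set (ℝ × ℝ)} (hA : Ok A) (hB : Ok B) (hC : Ok C)
    (hd : Disjoint A B) : BG (A ∪ B) C = BG A C + BG B C :=
  setIntegral_union hd hB.m (BG_int hK9 hA hC) (BG_int hK9 hB hC)

theorem BG_union_right (hK9 : StK9) {A B C : Set (ℝ × ℝ)} (hA : Ok A) (hB : Ok B) (hC : Ok C)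
    (hd : Disjoint A B) : BG C (A ∪ B) = BG C A + BG C B := by
  rw [BG_comm hK9 hC (hA.union hB), BG_union_left hK9 hA hB hC hd, BG_comm hK9 hA hC,
    BG_comm hK9 hB hC]

theorem BG_sq_union (hK9 : StK9) {A B : Set (ℝ × ℝ)} (hA : Ok A) (hB : Ok B)
    (hd : Disjoint A B) : BG (A ∪ B) (A ∪ B) = BG A A + 2 * BG A B + BG B B := by
  rw [BG_union_left hK9 hA hB (hA.union hB) hd, BG_union_right hK9 hA hB hA hd,
    BG_union_right hK9 hA hB hB hd, BG_comm hK9 hB hA]
  ring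

end VD.M_X2

namespace VD

open M_X2

/-- polarisation increases the energy strictly -/
theorem mX2 (_hK0 : StK0) (_hK1 : StK1) (hK2 : StK2) (hK5 : StK5) (hK9 : StK9) : StX2 := by
  intro A l hA hAs hAv hAn hPpos hQpos
  have hAo : Ok A := ⟨hA, hAs, hAv, hAn⟩
  have hhalf : MeasurableSet {z : ℝ × ℝ | z.1 < l} := measurableSet_lt measurable_fst measurable_const
  have hPm : MeasurableSet (Pl A l) := by
    have : Pl A l = {z : ℝ × ℝ | z.1 < l} ∩ (A ∩ (rfl' l ⁻¹' A)ᶜ) := rfl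
    rw [this]
    exact hhalf.inter (hA.inter (meas_rfl l hA).compl)
  have hQm : MeasurableSet (Ql A l) := by
    have : Ql A l = {z : ℝ × ℝ | z.1 < l} ∩ (Aᶜ ∩ (rfl' l ⁻¹' A)) := rfl
    rw [this]
    exact hhalf.inter (hA.compl.inter (meas_rfl l hA))
  set P := Pl A l with hP
  set Q := Ql A l with hQ
  set Q' := rfl' l ⁻¹' Q with hQ'
  set S := A ∩ rfl' l ⁻¹' A with hS
  have hPo : Ok P := hAo.mono hPm fun z hz => hz.2.1
  have hQo : Ok Q := (hAo.refl hK5 l).mono hQm fun z hz => hz.2.2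
  have hQo' : Ok Q' := hQo.refl hK5 l
  have hSo : Ok S := hAo.mono (hA.inter (meas_rfl l hA)) inter_subset_left
  have hQ'A : Q' ⊆ A := fun z hz => by
    have := hz.2.2
    rwa [rfl_rfl] at this
  have hAeq : A \ Q' = P ∪ S := by
    ext z
    constructor
    · rintro ⟨hz, hz'⟩
      by_cases h : rfl' l z ∈ A
      · exact Or.inr ⟨hz, h⟩
      · left
        refine ⟨?_, hz, h⟩
        by_contra hc
        rcases (not_lt.mp hc).eq_or_lt with h1 | h1
        · apply h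
          have : rfl' l z = z := by
            unfold rfl'
            ext
            · simp only; linarith
            · rfl
          rwa [this]
        · apply hz'
          show rfl' l z ∈ Ql A l
          refine ⟨?_, h, by rwa [rfl_rfl]⟩
          unfold rfl'
          simp only; linarith
    · rintro (hz | hz)
      · refine ⟨hz.2.1, fun h => ?_⟩
        have h1 : (rfl' l z).1 < l := h.1
        have h2 : z.1 < l := hz.1
        unfold rfl' at h1
        simp only at h1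
        linarith
      · exact ⟨hz.1, fun h => h.2.1 hz.2⟩
  have hAeq2 : A = P ∪ (S ∪ Q') := by
    rw [← union_assoc, ← hAeq, sdiff_union_of_subset hQ'A]
  have hA'eq : (A \ Q') ∪ Q = P ∪ (S ∪ Q) := by rw [hAeq, union_assoc]
  have dPS : Disjoint P S := by
    rw [Set.disjoint_left]
    intro z h1 h2
    exact h1.2.2 h2.2
  have dPQ : Disjoint P Q := by
    rw [Set.disjoint_left]
    intro z h1 h2
    exact h2.2.1 h1.2.1
  have dSQ : Disjoint S Q := by
    rw [Set.disjoint_left]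
    intro z h1 h2
    exact h2.2.1 h1.1
  have dSQ' : Disjoint S Q' := by
    rw [Set.disjoint_left]
    intro z h1 h2
    exact h2.2.1 h1.2
  have dPQ' : Disjoint P Q' := by
    rw [Set.disjoint_left]
    intro z h1 h2
    have h3 : z ∈ A \ Q' := by rw [hAeq]; exact Or.inl h1
    exact h3.2 h2
  have hT : rfl' l ⁻¹' (S ∪ Q) = S ∪ Q' := by
    rw [preimage_union]
    congr 1
    ext z
    simp only [hS, mem_preimage, mem_inter_iff, rfl_rfl]
    tauto
  have hBT : BG (S ∪ Q') (S ∪ Q') = BG (S ∪ Q) (S ∪ Q) := by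
    rw [← hT]
    exact (hK5.2.2 (S ∪ Q) l (hSo.union hQo).m (hSo.union hQo).s).2.2.2
  obtain ⟨hphi, hnuQ, hvQ, _⟩ := hK5.2.2 Q l hQo.m hQo.s
  have hdiff : 0 < BG P Q - BG P Q' := by
    unfold BG
    rw [← integral_sub (BG_int hK9 hPo hQo) (BG_int hK9 hPo hQo')]
    have hpos : ∀ z ∈ P, 0 < z.2 * phi Q z - z.2 * phi Q' z := by
      intro z hz
      have hz2 : 0 < z.2 := hPo.s hz
      rw [← mul_sub]
      apply mul_pos hz2
      rw [hphi z]
      unfold phi
      have i1 := (hK2 Q hQo.m hQo.s hQo.v z hz2.le).1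
      have i2 := (hK2 Q hQo.m hQo.s hQo.v (rfl' l z) hz2.le).1
      rw [← integral_sub i1 i2]
      have hp : ∀ y ∈ Q, 0 < N z y - N (rfl' l z) y := by
        intro y hy
        rw [sub_pos]
        apply N_lt (z' := rfl' l z) hz2 rfl (hQo.s hy)
        · rintro rfl
          exact hy.2.1 hz.2.1
        · have h1 : z.1 < l := hz.1
          have h2 : y.1 < l := hy.1
          show (z.1 - y.1) ^ 2 < (2 * l - z.1 - y.1) ^ 2
          nlinarith [mul_pos (sub_pos.mpr h1) (sub_pos.mpr h2)]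
      rw [setIntegral_pos_iff_support_of_nonneg_ae]
      · refine lt_of_lt_of_le hQpos (measure_mono fun y hy => ⟨(hp y hy).ne', hy⟩)
      · exact (ae_restrict_iff' hQo.m).mpr (ae_of_all _ fun y hy => (hp y hy).le)
      · exact i1.sub i2
    rw [setIntegral_pos_iff_support_of_nonneg_ae]
    · refine lt_of_lt_of_le hPpos (measure_mono fun y hy => ⟨(hpos y hy).ne', hy⟩)
    · exact (ae_restrict_iff' hPo.m).mpr (ae_of_all _ fun y hy => (hpos y hy).le)
    · exact (BG_int hK9 hPo hQo).sub (BG_int hK9 hPo hQo')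
  have hQA : Disjoint (A \ Q') Q := by
    rw [Set.disjoint_left]
    intro z h1 h2
    exact h2.2.1 h1.1
  refine ⟨(hA.diff hQo'.m).union hQm, ?_, ?_, ?_⟩
  · rw [measure_union hQA hQm, ← hnuQ, ← measure_union disjoint_sdiff_left hQo'.m,
      sdiff_union_of_subset hQ'A]
  · rw [measure_union hQA hQm, ← hvQ, ← measure_union disjoint_sdiff_left hQo'.m,
      sdiff_union_of_subset hQ'A]
  · rw [hA'eq]
    have e1 : BG A A = BG P P + 2 * BG P (S ∪ Q') + BG (S ∪ Q') (S ∪ Q') := by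
      conv_lhs => rw [hAeq2]
      exact BG_sq_union hK9 hPo (hSo.union hQo') (disjoint_union_right.mpr ⟨dPS, dPQ'⟩)
    have e2 := BG_sq_union hK9 hPo (hSo.union hQo) (disjoint_union_right.mpr ⟨dPS, dPQ⟩)
    rw [e1, e2, hBT, BG_union_right hK9 hSo hQo' hPo dSQ', BG_union_right hK9 hSo hQo hPo dSQ]
    linarith

end VD
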